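import Pool.Agent.helper36.HK.Spec

/-! Row HKT of project fi, block HK (MP_ad8ced_nt) -/

set_option autoImplicit false

open Finset
open Pool.Agent.FI

noncomputable section

namespace Pool.Agent.HK

/-- The weight. -/
private def HKT_W (n : ℕ) : ℂ := if n % 8 = 1 ∨ n % 8 = 7 then 2 else 0

private theorem HKT_rf (hCNP : CNP_stmt) (p : ℕ) (hp : p.Prime) : rf (fun _ => 1) p = HKT_W p := by
  unfold rf HKT_W
  rw [sum_const, hCNP p hp]
  split_ifs <;> simp

private theorem HKT_sum : ∑ b ∈ range 8, HKT_W b = 4 := by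
  unfold HKT_W
  simp only [sum_range_succ, sum_range_zero]
  norm_num

theorem HKT (hAPW : APW_stmt) (hCNP : CNP_stmt) (hSRF : SRF_stmt) : HKT_stmt := by
  intro A
  obtain ⟨C, x₀, hC, h⟩ := hAPW A 1
  refine ⟨C, max x₀ (Real.exp 8), hC, ?_⟩
  intro x hx u hu
  have hx1 : x₀ ≤ x := (le_max_left _ _).trans hx
  have hx2 : Real.exp 8 ≤ x := (le_max_right _ _).trans hx
  have hx0 : 0 < x := (Real.exp_pos 8).trans_le hx2
  have h8 : ((8 : ℕ) : ℝ) ≤ Real.log x ^ 1 := by
    rw [pow_one, Real.le_log_iff_exp_le hx0]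
    exact_mod_cast hx2
  have g := h x hx1 8 (by norm_num) h8 HKT_W
    (fun n => by unfold HKT_W; rw [Nat.add_mod_right])
    (fun n => by unfold HKT_W; split_ifs <;> simp)
    (fun n hn => by
      unfold HKT_W
      rw [if_neg]
      intro hc
      apply hn
      have h2 : Nat.Coprime n (2 ^ 3) := by
        apply Nat.Coprime.pow_right
        rw [Nat.coprime_two_right]
        rw [Nat.odd_iff]
        omega
      exact h2) u hu
  have e1 : (Nat.totient 8 : ℂ) = 4 := by
    have : Nat.totient 8 = 4 := by decide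
    rw [this]
    norm_num
  rw [HKT_sum, e1, div_mul_cancel₀ _ (by norm_num : (4 : ℂ) ≠ 0)] at g
  have e2 : PS u (fun _ => 1) = ∑ p ∈ Ioc 0 u with p.Prime, (Real.log p : ℂ) * HKT_W p := by
    rw [hSRF.2.2]
    apply sum_congr rfl
    intro p hp
    rw [HKT_rf hCNP p (mem_filter.1 hp).2]
  rw [e2]
  exact g

end Pool.Agent.HK
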