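import Pool.Agent.helper36.HK.Spec

/-! Row TRI of project fi, block HK (MP_ad8ced_nt) -/

set_option autoImplicit false

open Finset
open Pool.Agent.FI

noncomputable section

namespace Pool.Agent.HK

private theorem TRI_nn_mul (z w : ℤ × ℤ) : nn (mul8 z w) = nn z * nn w := by
  unfold nn
  rw [← Int.natAbs_mul]
  congr 1
  unfold N8 mul8
  simp only
  ring

private theorem TRI_nn_int (t : ℤ) (d : ℕ) (h : IsCoprime t (d : ℤ)) : Nat.Coprime (nn (t, 0)) d := by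
  have e : nn (t, 0) = t.natAbs ^ 2 := by
    unfold nn N8
    simp only
    rw [← Int.natAbs_pow]
    congr 1
    ring
  rw [e]
  apply Nat.Coprime.pow_left
  rw [Int.isCoprime_iff_gcd_eq_one] at h
  exact h

private theorem TRI_I1 (d : ℕ) : UC d (I1 d) := by
  refine ⟨?_, ?_, ?_, ?_, ?_⟩
  · intro z w _ _
    unfold I1
    rw [TRI_nn_mul]
    by_cases h1 : Nat.Coprime (nn z) d
    · by_cases h2 : Nat.Coprime (nn w) d
      · rw [if_pos (Nat.Coprime.mul_left h1 h2), if_pos h1, if_pos h2, one_mul]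
      · rw [if_neg (fun h => h2 (Nat.coprime_mul_iff_left.1 h).2), if_neg h2, mul_zero]
    · rw [if_neg (fun h => h1 (Nat.coprime_mul_iff_left.1 h).1), if_neg h1, zero_mul]
  · intro u hu
    unfold I1
    rw [if_pos]
    have : nn u = 1 := by unfold nn; rw [hu]; rfl
    rw [this]
    exact Nat.coprime_one_left d
  · intro z _ h
    unfold I1
    rw [if_neg h]
  · intro z _ h
    unfold I1
    rw [if_pos h, norm_one]
  · intro t _ h
    unfold I1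
    rw [if_pos (TRI_nn_int t d h)]

private theorem TRI_sq (d : ℕ) (Ψ : ℤ × ℤ → ℂ) (h : UC d Ψ) : UC d (fun z => Ψ z ^ 2) := by
  obtain ⟨h1, h2, h3, h4, h5⟩ := h
  refine ⟨?_, ?_, ?_, ?_, ?_⟩
  · intro z w hz hw
    beta_reduce
    rw [h1 z w hz hw, mul_pow]
  · intro u hu
    beta_reduce
    rw [h2 u hu, one_pow]
  · intro z hz hc
    beta_reduce
    rw [h3 z hz hc]
    ring
  · intro z hz hc
    beta_reduce
    rw [norm_pow, h4 z hz hc, one_pow]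
  · intro t ht hc
    beta_reduce
    rw [h5 t ht hc, one_pow]

private theorem TRI_pi (hTHU : THU_stmt) (p : ℕ) (hp : p.Prime) (h8 : p % 8 = 1 ∨ p % 8 = 7) :
    ∃ z : ℤ × ℤ, nn z = p := by
  have : Fact p.Prime := ⟨hp⟩
  have hp2 : p ≠ 2 := by omega
  obtain ⟨s, hs⟩ := (ZMod.exists_sq_eq_two_iff hp2).2 h8
  have hodd : Odd p := hp.odd_of_ne_two hp2
  obtain ⟨z, hz, -⟩ := hTHU p (2 * (s.val : ℤ)) hodd (by
    rw [← ZMod.intCast_zmod_eq_zero_iff_dvd]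
    push_cast
    rw [ZMod.natCast_zmod_val]
    have e : (2 * s) ^ 2 - 8 = 4 * (s * s - 2) := by ring
    rw [e, ← hs, sub_self, mul_zero])
  exact ⟨z, hz⟩

private theorem TRI_odd (z : ℤ × ℤ) (p : ℕ) (hz : nn z = p) (hp : p % 2 = 1) : z.1 % 2 = 1 := by
  unfold nn N8 at hz
  have h1 : (z.1 ^ 2 - 8 * z.2 ^ 2) % 2 = 1 := by omega
  have h2 : (z.1 ^ 2) % 2 = 1 := by omega
  rcases Int.emod_two_eq_zero_or_one z.1 with h | h
  · exfalso
    have : (z.1 ^ 2) % 2 = 0 := by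
      rw [pow_two, Int.mul_emod, h]
      rfl
    omega
  · exact h

private theorem TRI_one (hRSP : RSP_stmt) (hRIN : RIN_stmt) (hCVR : CVR_stmt) (hCME : CME_stmt)
    (d : ℕ) (Φ : ℤ × ℤ → ℂ) (hΦ : UC d Φ) (π : ℕ → ℤ × ℤ)
    (hπ : ∀ p : ℕ, p.Prime → (p % 8 = 1 ∨ p % 8 = 7) → nn (π p) = p) :
    ∃ a b : ℕ → ℂ, CM a ∧ CM b ∧
      (∀ p : ℕ, p.Prime → (p % 8 = 1 ∨ p % 8 = 7) → ¬ p ∣ d →
        a p = Φ (π p) ∧ b p = (starRingEnd ℂ) (Φ (π p)) ∧ ‖Φ (π p)‖ = 1) ∧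
      (∀ p : ℕ, p.Prime → (p % 8 = 3 ∨ p % 8 = 5) → ¬ p ∣ d → a p = 1 ∧ b p = -1) ∧
      (∀ p : ℕ, p.Prime → (p = 2 ∨ p ∣ d) → a p = 0 ∧ b p = 0) ∧
      ∀ n : ℕ, 1 ≤ n → rf Φ n = cv a b n := by
  classical
  have hnorm : ∀ p : ℕ, p.Prime → (p % 8 = 1 ∨ p % 8 = 7) → ¬ p ∣ d → ‖Φ (π p)‖ = 1 := by
    intro p hp h8 hd
    have h1 := hπ p hp h8
    refine hΦ.2.2.2.1 (π p) (TRI_odd _ p h1 (by omega)) ?_
    rw [h1]
    exact (Nat.Prime.coprime_iff_not_dvd hp).2 hd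
  obtain ⟨a, ha, ha'⟩ := hCME (fun p => if p.Prime ∧ ¬ p ∣ d then
      (if p % 8 = 1 ∨ p % 8 = 7 then Φ (π p) else if p % 8 = 3 ∨ p % 8 = 5 then 1 else 0) else 0) (by
    intro p
    beta_reduce
    split_ifs with h1 h2 h3
    · exact (hnorm p h1.1 h2 h1.2).le
    · simp
    · simp
    · simp)
  obtain ⟨b, hb, hb'⟩ := hCME (fun p => if p.Prime ∧ ¬ p ∣ d then
      (if p % 8 = 1 ∨ p % 8 = 7 then (starRingEnd ℂ) (Φ (π p)) else
        if p % 8 = 3 ∨ p % 8 = 5 then -1 else 0) else 0) (by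
    intro p
    beta_reduce
    split_ifs with h1 h2 h3
    · rw [Complex.norm_conj]
      exact (hnorm p h1.1 h2 h1.2).le
    · simp
    · simp
    · simp)
  have k1 : ∀ p : ℕ, p.Prime → (p % 8 = 1 ∨ p % 8 = 7) → ¬ p ∣ d →
        a p = Φ (π p) ∧ b p = (starRingEnd ℂ) (Φ (π p)) ∧ ‖Φ (π p)‖ = 1 := by
    intro p hp h8 hd
    refine ⟨?_, ?_, hnorm p hp h8 hd⟩
    · rw [ha' p hp, if_pos ⟨hp, hd⟩, if_pos h8]
    · rw [hb' p hp, if_pos ⟨hp, hd⟩, if_pos h8]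
  have k2 : ∀ p : ℕ, p.Prime → (p % 8 = 3 ∨ p % 8 = 5) → ¬ p ∣ d → a p = 1 ∧ b p = -1 := by
    intro p hp h8 hd
    refine ⟨?_, ?_⟩
    · rw [ha' p hp, if_pos ⟨hp, hd⟩, if_neg (by omega), if_pos h8]
    · rw [hb' p hp, if_pos ⟨hp, hd⟩, if_neg (by omega), if_pos h8]
  have k3 : ∀ p : ℕ, p.Prime → (p = 2 ∨ p ∣ d) → a p = 0 ∧ b p = 0 := by
    intro p hp h
    rcases h with rfl | h
    · refine ⟨?_, ?_⟩
      · rw [ha' 2 hp]
        split_ifs with h1 h2 h3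
        · omega
        · omega
        · rfl
        · rfl
      · rw [hb' 2 hp]
        split_ifs with h1 h2 h3
        · omega
        · omega
        · rfl
        · rfl
    · refine ⟨?_, ?_⟩
      · rw [ha' p hp, if_neg (fun hc => hc.2 h)]
      · rw [hb' p hp, if_neg (fun hc => hc.2 h)]
  refine ⟨a, b, ha, hb, k1, k2, k3, ?_⟩
  intro n
  induction n using Nat.strong_induction_on with
  | _ n ih =>
    intro hn
    rcases Nat.lt_or_ge 1 n with h1 | h1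
    · have hp := Nat.minFac_prime (show n ≠ 1 by omega)
      obtain ⟨p, hpd⟩ : ∃ p : ℕ, p = n.minFac := ⟨_, rfl⟩
      rw [← hpd] at hp
      obtain ⟨m, hm⟩ : p ∣ n := hpd ▸ Nat.minFac_dvd n
      have hm1 : 1 ≤ m := by
        rcases Nat.eq_zero_or_pos m with h | h
        · rw [h, mul_zero] at hm; omega
        · exact h
      have hmn : m < n := by
        rw [hm]
        have := hp.two_le
        nlinarith
      have hif : (if p ∣ m then rf Φ (m / p) else 0) = if p ∣ m then cv a b (m / p) else 0 := by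
        split_ifs with hdv
        · apply ih (m / p) (lt_of_le_of_lt (Nat.div_le_self _ _) hmn)
          exact Nat.div_pos (Nat.le_of_dvd hm1 hdv) hp.pos
        · rfl
      rw [hm, hCVR a b ha hb p m hp hm1, ← ih m hmn hm1, ← hif]
      by_cases hr : p = 2 ∨ p ∣ d
      · rw [((hRIN d Φ hΦ).2 p m hp hm1).1 hr, (k3 p hp hr).1, (k3 p hp hr).2]
        ring
      · push Not at hr
        have hodd : p % 2 = 1 := hp.eq_two_or_odd.resolve_left hr.1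
        by_cases h8 : p % 8 = 1 ∨ p % 8 = 7
        · obtain ⟨e1, e2, e3⟩ := k1 p hp h8 hr.2
          rw [hRSP d Φ hΦ p (π p) hp hr.1 (hπ p hp h8) hr.2 m hm1, e1, e2, Complex.mul_conj,
            Complex.normSq_eq_norm_sq, e3]
          simp
        · have h8' : p % 8 = 3 ∨ p % 8 = 5 := by omega
          obtain ⟨e1, e2⟩ := k2 p hp h8' hr.2
          rw [((hRIN d Φ hΦ).2 p m hp hm1).2 h8' hr.2, e1, e2]
          ring
    · have h2 : n = 1 := by omega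
      subst h2
      rw [(hRIN d Φ hΦ).1]
      unfold cv
      rw [Nat.divisorsAntidiagonal_one, sum_singleton, ha.2.1, hb.2.1, one_mul]

theorem TRI (hRSP : RSP_stmt) (hRIN : RIN_stmt) (hCVR : CVR_stmt) (hCME : CME_stmt)
    (hTHU : THU_stmt) : TRI_stmt := by
  intro d Ψ hΨ
  have hex : ∀ p : ℕ, ∃ z : ℤ × ℤ, p.Prime → (p % 8 = 1 ∨ p % 8 = 7) → nn z = p := by
    intro p
    by_cases h : p.Prime ∧ (p % 8 = 1 ∨ p % 8 = 7)
    · obtain ⟨z, hz⟩ := TRI_pi hTHU p h.1 h.2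
      exact ⟨z, fun _ _ => hz⟩
    · exact ⟨(1, 0), fun h1 h2 => absurd ⟨h1, h2⟩ h⟩
  choose π hπ using hex
  obtain ⟨k₁, k₂, c1, c2, c3, c4, c5, c6⟩ := TRI_one hRSP hRIN hCVR hCME d (I1 d) (TRI_I1 d) π hπ
  obtain ⟨g₁, g₂, d1, d2, d3, d4, d5, d6⟩ := TRI_one hRSP hRIN hCVR hCME d Ψ hΨ π hπ
  obtain ⟨h₁, h₂, f1, f2, f3, f4, f5, f6⟩ :=
    TRI_one hRSP hRIN hCVR hCME d (fun z => Ψ z ^ 2) (TRI_sq d Ψ hΨ) π hπ
  refine ⟨k₁, k₂, g₁, g₂, h₁, h₂, c1, c2, d1, d2, f1, f2, ?_, fun n hn => ⟨c6 n hn, d6 n hn, f6 n hn⟩⟩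
  intro p hp
  by_cases hr : p = 2 ∨ p ∣ d
  · right; right
    exact ⟨(c5 p hp hr).1, (c5 p hp hr).2, (d5 p hp hr).1, (d5 p hp hr).2, (f5 p hp hr).1, (f5 p hp hr).2⟩
  · push Not at hr
    have hodd : p % 2 = 1 := hp.eq_two_or_odd.resolve_left hr.1
    by_cases h8 : p % 8 = 1 ∨ p % 8 = 7
    · left
      obtain ⟨x1, x2, -⟩ := c3 p hp h8 hr.2
      obtain ⟨y1, y2, y3⟩ := d3 p hp h8 hr.2
      obtain ⟨z1, z2, -⟩ := f3 p hp h8 hr.2
      have hI : I1 d (π p) = 1 := by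
        unfold I1
        rw [if_pos]
        rw [hπ p hp h8]
        exact (Nat.Prime.coprime_iff_not_dvd hp).2 hr.2
      refine ⟨?_, ?_, ?_, ?_, ?_, ?_⟩
      · rw [x1, hI]
      · rw [x2, hI, map_one]
      · rw [y1, y3]
      · rw [y2, Complex.norm_conj, y3]
      · rw [z1, y1]
      · rw [z2, y2, map_pow]
    · have h8' : p % 8 = 3 ∨ p % 8 = 5 := by omega
      right; left
      exact ⟨(c4 p hp h8' hr.2).1, (c4 p hp h8' hr.2).2, (d4 p hp h8' hr.2).1, (d4 p hp h8' hr.2).2,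
        (f4 p hp h8' hr.2).1, (f4 p hp h8' hr.2).2⟩

end Pool.Agent.HK
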